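import Mathlib
import Pool.Agent.H688R2.JIT.Main

set_option autoImplicit false

/-!
Randomized algorithms for just-in-time sequencing with access to the penalties by evaluation, and
elementary facts on discrete probabilities.
-/

namespace Pool.Agent.Y591.JR

open Finset Classical
open Pool.Agent.H688R2.JIT
open scoped ENNReal

/-- A randomized algorithm: for every number `n` of models and every demand vector a probability
distribution on deterministic algorithms (preparation together with the query procedure). -/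
abbrev RandAlgorithm : Type 1 := (n : ℕ) → (Fin n → ℕ) → PMF Algorithm

/-- The probability that a randomly chosen deterministic algorithm succeeds on the instance
`(d, F)` within `c (n + log₂ D + 1)^c` evaluations. -/
noncomputable def successProb (D : PMF Algorithm) {n : ℕ} (F : Fin n → ℝ → ℝ) (d : Fin n → ℕ)
    (c : ℕ) : ℝ≥0∞ :=
  D.toOuterMeasure {A | A.Succeeds F d c}

/-- The models returned by `A` for the positions `1, …, D` are those of one optimal sequence. -/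
def Correct {n : ℕ} (F : Fin n → ℝ → ℝ) (d : Fin n → ℕ) (A : Algorithm) : Prop :=
  ∃ S : ℕ → Fin n, IsOptimal F d S ∧
    ∀ k ∈ Finset.Icc 1 (total d), ((A.query n ((A.prep n d).run F).1 k).run F).1 = S k

/-- The probability that the models returned for the positions `1, …, D` are those of one optimal
sequence. -/
noncomputable def correctProb (D : PMF Algorithm) {n : ℕ} (F : Fin n → ℝ → ℝ)
    (d : Fin n → ℕ) : ℝ≥0∞ :=
  D.toOuterMeasure {A | Correct F d A}

/-- The expected number of evaluations in the preparation. -/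
noncomputable def prepCost (D : PMF Algorithm) {n : ℕ} (F : Fin n → ℝ → ℝ)
    (d : Fin n → ℕ) : ℝ≥0∞ :=
  ∑' A : Algorithm, D A * (((A.prep n d).run F).2 : ℝ≥0∞)

/-- The expected number of evaluations in the query for position `k`. -/
noncomputable def queryCost (D : PMF Algorithm) {n : ℕ} (F : Fin n → ℝ → ℝ)
    (d : Fin n → ℕ) (k : ℕ) : ℝ≥0∞ :=
  ∑' A : Algorithm, D A * (((A.query n ((A.prep n d).run F).1 k).run F).2 : ℝ≥0∞)

/-- The expected numbers of evaluations in the preparation and in each query are at most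
`c (n + log₂ D + 1)^c`. -/
def EfficientOn (D : PMF Algorithm) {n : ℕ} (F : Fin n → ℝ → ℝ) (d : Fin n → ℕ) (c : ℕ) : Prop :=
  prepCost D F d ≤ ((c * (n + Nat.log 2 (total d) + 1) ^ c : ℕ) : ℝ≥0∞) ∧
  ∀ k ∈ Finset.Icc 1 (total d),
    queryCost D F d k ≤ ((c * (n + Nat.log 2 (total d) + 1) ^ c : ℕ) : ℝ≥0∞)

section Generic

universe u

variable {α : Type u}

/-- the probability of a property -/
noncomputable def pr (D : PMF α) (Q : α → Prop) : ℝ≥0∞ := ∑' T, D T * (if Q T then 1 else 0)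

theorem pr_eq (D : PMF α) (Q : α → Prop) : D.toOuterMeasure {T | Q T} = pr D Q := by
  rw [PMF.toOuterMeasure_apply]
  unfold pr
  apply tsum_congr
  intro T
  unfold Set.indicator
  by_cases h : Q T
  · simp [h]
  · simp [h]

theorem pr_le_one (D : PMF α) (Q : α → Prop) : pr D Q ≤ 1 := by
  rw [← D.tsum_coe]
  apply ENNReal.tsum_le_tsum
  intro T
  split_ifs
  · rw [mul_one]
  · rw [mul_zero]; exact zero_le

theorem pr_add_not (D : PMF α) (Q : α → Prop) : pr D Q + pr D (fun T => ¬ Q T) = 1 := by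
  unfold pr
  rw [← ENNReal.tsum_add, ← D.tsum_coe]
  apply tsum_congr
  intro T
  by_cases h : Q T <;> simp [h]

theorem pr_union (D : PMF α) (Q Q1 Q2 Q3 : α → Prop) (h : ∀ T, Q T → Q1 T ∨ Q2 T ∨ Q3 T) :
    pr D Q ≤ pr D Q1 + pr D Q2 + pr D Q3 := by
  unfold pr
  rw [← ENNReal.tsum_add, ← ENNReal.tsum_add]
  apply ENNReal.tsum_le_tsum
  intro T
  rw [← mul_add, ← mul_add]
  apply mul_le_mul_right
  by_cases hQ : Q T
  · rw [if_pos hQ]
    rcases h T hQ with h | h | h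
    · rw [if_pos h]
      exact le_add_right (le_add_right le_rfl)
    · rw [if_pos h]
      exact le_add_right (le_add_left le_rfl)
    · rw [if_pos h]
      exact le_add_left le_rfl
  · rw [if_neg hQ]
    exact zero_le

theorem pr_mono (D : PMF α) (Q Q' : α → Prop) (h : ∀ T, Q T → Q' T) : pr D Q ≤ pr D Q' := by
  unfold pr
  apply ENNReal.tsum_le_tsum
  intro T
  apply mul_le_mul_right
  by_cases hQ : Q T
  · rw [if_pos hQ, if_pos (h T hQ)]
  · rw [if_neg hQ]
    exact zero_le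

theorem markov (D : PMF α) (g : α → ℕ) (B b N : ℕ) (hE : ∑' A, D A * (g A : ℝ≥0∞) ≤ B)
    (hb : N * B ≤ b) : pr D (fun A => ¬ g A ≤ b) ≤ (N : ℝ≥0∞)⁻¹ := by
  have h1 : ((b + 1 : ℕ) : ℝ≥0∞) * pr D (fun A => ¬ g A ≤ b) ≤ B := by
    refine le_trans ?_ hE
    unfold pr
    rw [← ENNReal.tsum_mul_left]
    apply ENNReal.tsum_le_tsum
    intro T
    by_cases h : g T ≤ b
    · rw [if_neg (not_not.2 h), mul_zero, mul_zero]
      exact zero_le
    · rw [if_pos h, mul_one, mul_comm]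
      apply mul_le_mul_right
      exact_mod_cast (by omega : b + 1 ≤ g T)
  rw [ENNReal.le_inv_iff_mul_le]
  have h2 : ((b + 1 : ℕ) : ℝ≥0∞) * (pr D (fun A => ¬ g A ≤ b) * (N : ℝ≥0∞)) ≤
      ((b + 1 : ℕ) : ℝ≥0∞) * 1 := by
    calc ((b + 1 : ℕ) : ℝ≥0∞) * (pr D (fun A => ¬ g A ≤ b) * (N : ℝ≥0∞))
        = (N : ℝ≥0∞) * (((b + 1 : ℕ) : ℝ≥0∞) * pr D (fun A => ¬ g A ≤ b)) := by ring
      _ ≤ (N : ℝ≥0∞) * B := mul_le_mul_right h1 _
      _ ≤ ((b + 1 : ℕ) : ℝ≥0∞) * 1 := by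
          rw [mul_one]
          exact_mod_cast (by omega : N * B ≤ b + 1)
  have h3 : ((b + 1 : ℕ) : ℝ≥0∞) ≠ 0 := by exact_mod_cast (Nat.succ_ne_zero b)
  exact (ENNReal.mul_le_mul_iff_right h3 (ENNReal.natCast_ne_top _)).1 h2

theorem exists_finset (D : PMF α) (δ : ℝ≥0∞) (hδ : 0 < δ) :
    ∃ s : Finset α, pr D (fun T => T ∉ s) ≤ δ := by
  have h1 : (1 : ℝ≥0∞) - δ < 1 := ENNReal.sub_lt_self ENNReal.one_ne_top one_ne_zero hδ.ne'
  have h2 : (1 : ℝ≥0∞) = ⨆ s : Finset α, ∑ T ∈ s, D T := by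
    rw [← ENNReal.tsum_eq_iSup_sum, D.tsum_coe]
  have h3 : (1 : ℝ≥0∞) - δ < ⨆ s : Finset α, ∑ T ∈ s, D T := lt_of_lt_of_eq h1 h2
  obtain ⟨s, hs⟩ := lt_iSup_iff.1 h3
  refine ⟨s, ?_⟩
  have h4 : pr D (fun T => T ∈ s) = ∑ T ∈ s, D T := by
    unfold pr
    rw [tsum_eq_sum (s := s)]
    · apply sum_congr rfl
      intro T hT
      rw [if_pos hT, mul_one]
    · intro T hT
      rw [if_neg hT, mul_zero]
  have h5 := pr_add_not D (fun T => T ∈ s)
  have h6 : (1 : ℝ≥0∞) ≤ pr D (fun T => T ∈ s) + δ := by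
    rw [h4]
    exact tsub_le_iff_right.1 hs.le
  rw [← h5] at h6
  have h7 : pr D (fun T => T ∈ s) ≠ ⊤ :=
    ne_top_of_le_ne_top ENNReal.one_ne_top (pr_le_one D _)
  exact (ENNReal.add_le_add_iff_left h7).1 h6

theorem exists_light (D : PMF α) (M : Finset ℕ) (U : α → Finset ℕ) (b N : ℕ)
    (hU : ∀ T, (U T).card ≤ 2 * b) (hN : 0 < N) (hM : N * (2 * b) < M.card) :
    ∃ m ∈ M, pr D (fun T => m ∈ U T) ≤ (N : ℝ≥0∞)⁻¹ := by
  by_contra hcon
  push Not at hcon
  have h1 : ∑ _m ∈ M, (N : ℝ≥0∞)⁻¹ ≤ ∑ m ∈ M, pr D (fun T => m ∈ U T) :=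
    sum_le_sum (fun m hm => (hcon m hm).le)
  have h2 : ∑ m ∈ M, pr D (fun T => m ∈ U T) ≤ ((2 * b : ℕ) : ℝ≥0∞) := by
    unfold pr
    rw [← Summable.tsum_finsetSum (fun _ _ => ENNReal.summable)]
    refine le_trans (ENNReal.tsum_le_tsum (g := fun T => D T * ((2 * b : ℕ) : ℝ≥0∞))
      (fun T => ?_)) (le_of_eq ?_)
    · rw [← mul_sum]
      apply mul_le_mul_right
      refine le_trans (le_of_eq (b := ∑ i ∈ M, (if i ∈ U T then (1 : ℝ≥0∞) else 0)) ?_) ?_
      · apply sum_congr rfl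
        intro i _
        by_cases h : i ∈ U T <;> simp [h]
      · rw [sum_boole]
        refine Nat.cast_le.2 (le_trans (card_le_card ?_) (hU T))
        intro m hm
        exact (mem_filter.1 hm).2
    · rw [ENNReal.tsum_mul_right, D.tsum_coe, one_mul]
  rw [sum_const, nsmul_eq_mul] at h1
  have h3 := h1.trans h2
  have hN0 : (N : ℝ≥0∞) ≠ 0 := by exact_mod_cast hN.ne'
  have h4 : (M.card : ℝ≥0∞) ≤ (N : ℝ≥0∞) * ((2 * b : ℕ) : ℝ≥0∞) := by
    calc (M.card : ℝ≥0∞) = (N : ℝ≥0∞) * ((M.card : ℝ≥0∞) * (N : ℝ≥0∞)⁻¹) := by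
          rw [mul_comm (M.card : ℝ≥0∞), ← mul_assoc,
            ENNReal.mul_inv_cancel hN0 (ENNReal.natCast_ne_top _), one_mul]
      _ ≤ (N : ℝ≥0∞) * ((2 * b : ℕ) : ℝ≥0∞) := mul_le_mul_right h3 _
  have h5 : M.card ≤ N * (2 * b) := by exact_mod_cast h4
  omega

end Generic

end Pool.Agent.Y591.JR
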