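import Mathlib
import Pool.Agent.Y591.JR.Prob

set_option autoImplicit false

/-!
One step of the construction, for a randomized algorithm.
-/

namespace Pool.Agent.Y591.JR

open Finset Classical
open Pool.Agent.H688R2.JIT
open scoped ENNReal

/-- the preparation and the query for the position `D / 2 + 1` make at most `b` evaluations, and
the model returned is that of some optimal sequence -/
def MidOK (F : Fin 4 → ℝ → ℝ) (d : Fin 4 → ℕ) (b : ℕ) (A : Algorithm) : Prop :=
  ((A.prep 4 d).run F).2 ≤ b ∧
  ((A.query 4 ((A.prep 4 d).run F).1 (total d / 2 + 1)).run F).2 ≤ b ∧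
  ∃ S : ℕ → Fin 4, IsOptimal F d S ∧
    ((A.query 4 ((A.prep 4 d).run F).1 (total d / 2 + 1)).run F).1 = S (total d / 2 + 1)

/-- whatever is added later outside the protected points, the success probability of `R` on some
instance is at most `1/2 + 2/N` -/
def Defeated (R : RandAlgorithm) (c N : ℕ) (st : Stage) : Prop :=
  ∀ η : ℝ → ℝ, GridOK 0 η → (∀ x ∈ st.P, η x = st.η x) →
    ∃ d : Fin 4 → ℕ, (∀ i, 0 < d i) ∧ 7 ≤ total d ∧
      pr (R 4 d) (MidOK (pen η) d (c * (4 + Nat.log 2 (total d) + 1) ^ c)) ≤
        1 / 2 + ((N : ℝ≥0∞)⁻¹ + (N : ℝ≥0∞)⁻¹)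

theorem random_step (j : ℕ) (st : Stage) (hst : Inv j st) (R : RandAlgorithm) (c N : ℕ)
    (hN : 0 < N) : ∃ st' : Stage, Inv (j + 1) st' ∧ Ext j st st' ∧ Defeated R c N st' := by
  classical
  obtain ⟨e, heE, he7, hgrow⟩ := growth st.P.card (N * c) st.e
  set D : ℕ := 3 ^ e with hD
  have hodd : D % 2 = 1 := mod_two e
  clear_value D
  set b : ℕ := c * (4 + Nat.log 2 D + 1) ^ c with hb
  have hbN : N * (2 * b) ≤ 2 * (N * c * (4 + Nat.log 2 D + 1) ^ (N * c)) := by
    have h1 : (4 + Nat.log 2 D + 1) ^ c ≤ (4 + Nat.log 2 D + 1) ^ (N * c) :=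
      Nat.pow_le_pow_right (by omega) (Nat.le_mul_of_pos_left _ hN)
    calc N * (2 * b) = 2 * (N * c * (4 + Nat.log 2 D + 1) ^ c) := by rw [hb]; ring
      _ ≤ 2 * (N * c * (4 + Nat.log 2 D + 1) ^ (N * c)) :=
          Nat.mul_le_mul_left _ (Nat.mul_le_mul_left _ h1)
  set F := pen st.η with hF
  set κ : ℝ → ℕ := fun p => ⌊|p| * D + 1 / 12⌋₊ with hκ
  set q : Algorithm → Proc 4 (Fin 4) :=
    fun A => A.query 4 ((A.prep 4 (dem D)).run F).1 (D / 2 + 1) with hq
  set pts : Algorithm → Finset ℝ :=
    fun A => (A.prep 4 (dem D)).pts F b ∪ (q A).pts F b with hpts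
  have hptsc : ∀ A, (pts A).card ≤ 2 * b := by
    intro A
    have h1 := pts_card F b (A.prep 4 (dem D))
    have h2 := pts_card F b (q A)
    have h3 := Finset.card_union_le ((A.prep 4 (dem D)).pts F b) ((q A).pts F b)
    rw [hpts]
    dsimp only
    omega
  set μ : PMF Algorithm := R 4 (dem D) with hμ
  set σ : ℝ := if 1 / 2 ≤ pr μ (fun A => ((q A).run F).1 = 0) then -1 else 1 with hσ
  set a : ℝ := σ * (1 / 2) ^ (j + 6) with ha
  have habs : |a| = (1 / 2) ^ (j + 6) := by
    rw [ha, abs_mul, abs_of_pos (show (0 : ℝ) < (1 / 2) ^ (j + 6) by positivity)]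
    have : |σ| = 1 := by
      rw [hσ]
      split_ifs <;> norm_num
    rw [this, one_mul]
  set M : Finset ℕ := Finset.Icc (6 * D / 10 + 2) (65 * D / 100 - 1) \ st.P.image κ with hM
  have hMc : N * (2 * b) < M.card := by
    have h1 : (st.P.image κ).card ≤ st.P.card := Finset.card_image_le
    have h2 := Finset.le_card_sdiff (st.P.image κ) (Finset.Icc (6 * D / 10 + 2) (65 * D / 100 - 1))
    rw [Nat.card_Icc, ← hM] at h2
    omega
  obtain ⟨m, hmM, hmlight⟩ := exists_light μ M (fun A => (pts A).image κ) b N
    (fun A => Finset.card_image_le.trans (hptsc A)) hN hMc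
  rw [hM, Finset.mem_sdiff] at hmM
  obtain ⟨hm, hmP⟩ := hmM
  rw [Finset.mem_Icc] at hm
  obtain ⟨s, hs⟩ := exists_finset μ (N : ℝ≥0∞)⁻¹
    (ENNReal.inv_pos.2 (ENNReal.natCast_ne_top _))
  have hD' : (0 : ℝ) < D := by
    have : 0 < D := by omega
    exact_mod_cast this
  have hm1 : (6 * D : ℝ) / 10 + 1 ≤ m := by
    have : 6 * D + 10 ≤ 10 * m := by omega
    have h' : (6 * D + 10 : ℝ) ≤ 10 * m := by exact_mod_cast this
    linarith
  have hm2 : (m : ℝ) + 1 ≤ 65 * D / 100 := by
    have : 100 * m + 100 ≤ 65 * D := by omega
    have h' : (100 * m + 100 : ℝ) ≤ 65 * D := by exact_mod_cast this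
    linarith
  have hw : (0 : ℝ) < 1 / (36 * (D : ℝ)) := by positivity
  have hlow : (m : ℝ) / D - 3 * (1 / (36 * (D : ℝ))) = (m - 1 / 12) / D := by
    field_simp
    ring
  have hhigh : (m : ℝ) / D + 1 / (3 * (D : ℝ)) + 3 * (1 / (36 * (D : ℝ))) = (m + 5 / 12) / D := by
    field_simp
    ring
  have hsupp : ∀ x, siteBump a D m x ≠ 0 → (m - 1 / 12 : ℝ) < |x| * D ∧ |x| * D < m + 5 / 12 := by
    intro x hx
    have := bump_supp hw (by positivity) (by rw [hlow]; apply div_nonneg <;> linarith) hx
    rw [hlow, hhigh, div_lt_iff₀ hD', lt_div_iff₀ hD'] at this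
    exact this
  have hzero : ∀ P : Finset ℝ, m ∉ P.image κ → ∀ x ∈ P, siteBump a D m x = 0 := by
    intro P hmP x hx
    by_contra hne
    have := hsupp x hne
    apply hmP
    rw [Finset.mem_image]
    refine ⟨x, hx, ?_⟩
    rw [hκ]
    simp only
    rw [Nat.floor_eq_iff (by positivity)]
    constructor <;> linarith [this.1, this.2]
  have hregion : ∀ x, siteBump a D m x ≠ 0 → 6 / 10 < |x| ∧ |x| < 65 / 100 := by
    intro x hx
    have := hsupp x hx
    constructor
    · by_contra hle
      push Not at hle
      nlinarith [this.1, this.2]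
    · by_contra hle
      push Not at hle
      nlinarith [this.1, this.2]
  have hsm : ∀ x, |siteBump a D m x| ≤ (1 / 2 : ℝ) ^ (j + 1) / 20 := by
    intro x
    have h1 := bump_abs (a := a) (s := (m : ℝ) / D) (d := 1 / (3 * (D : ℝ))) hw x
    rw [habs] at h1
    have h7 : (7 : ℝ) ≤ D := by exact_mod_cast he7
    have h2 : 1 / (36 * (D : ℝ)) ≤ 1 / 252 := by
      apply one_div_le_one_div_of_le
      · norm_num
      · linarith
    have h3 : 1152 * (1 / (36 * (D : ℝ))) ^ 2 ≤ 1 / 20 := by
      have : (1 / (36 * (D : ℝ))) ^ 2 ≤ (1 / 252) ^ 2 := by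
        apply pow_le_pow_left₀ hw.le h2
      linarith
    have h4 : (1 / 2 : ℝ) ^ (j + 6) ≤ (1 / 2) ^ (j + 1) := by
      apply pow_le_pow_of_le_one <;> norm_num
    calc |siteBump a D m x| ≤ _ := h1
      _ ≤ (1 / 2 : ℝ) ^ (j + 1) * (1 / 20) := by
        apply mul_le_mul h4 h3 (by positivity) (by positivity)
      _ = _ := by ring
  set st' : Stage :=
    { η := fun x => st.η x + siteBump a D m x
      P := st.P ∪ s.biUnion pts ∪ (Finset.range (D + 1)).image (fun k : ℕ => (k : ℝ) / D)
      e := e } with hst'
  have hsub : ∀ x, st'.η x - st.η x = siteBump a D m x := by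
    intro x
    rw [hst']
    simp only
    ring
  refine ⟨st', ?_, ?_, ?_⟩
  · refine ⟨?_, ?_, ?_, ?_⟩
    · intro x
      simp only [hst']
      rw [hst.even, siteBump, bump_even]
    · intro x
      simp only [hst']
      have h1 := hst.small x
      have h2 := hsm x
      have h3 := abs_add_le (st.η x) (siteBump a D m x)
      have h4 : (1 - (1 / 2 : ℝ) ^ (j + 1)) / 20 =
          (1 - (1 / 2 : ℝ) ^ j) / 20 + (1 / 2 : ℝ) ^ (j + 1) / 20 := by
        rw [pow_succ]
        ring
      rw [h4]
      linarith
    · intro x hx
      simp only [hst'] at hx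
      by_cases h1 : st.η x = 0
      · apply hregion
        intro h2
        apply hx
        rw [h1, h2, add_zero]
      · exact hst.supp x h1
    · intro N' hN' hdvd
      simp only [hst'] at hdvd ⊢
      rw [gridSum_add]
      rw [hst.cancel N' hN' (dvd_trans (pow_dvd_pow 3 (by omega)) hdvd)]
      rw [gridSum_siteBump_fine (by omega) (by omega) (by omega) a hN', add_zero]
      rw [pow_succ, mul_comm, ← hD] at hdvd
      exact hdvd
  · refine ⟨?_, ?_, ?_, ?_⟩
    · intro x hx
      rw [hst']
      simp only [Finset.mem_union]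
      tauto
    · intro x hx
      have := hzero st.P hmP x hx
      have h2 := hsub x
      linarith
    · simp only [hsub]
      have := convex_bump a ((m : ℝ) / D) (1 / (36 * D)) (1 / (3 * D))
      rw [habs] at this
      refine this.congr ?_
      intro x _
      simp only
      have e1 : (32 : ℝ) * (1 / 2) ^ (j + 6) = (1 / 2) ^ (j + 1) := by
        rw [show j + 6 = (j + 1) + 5 by ring, pow_add]
        norm_num
        ring
      rw [e1]
      rfl
    · intro x
      rw [hsub]
      exact hsm x
  · intro η hη hagree
    have hη' : GridOK D η := ⟨hη.even, hη.small, hη.supp⟩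
    refine ⟨dem D, ?_, by rw [total_dem (by omega : 3 ≤ D)]; exact he7, ?_⟩
    · intro i
      fin_cases i
      · simp [dem]
      · simp [dem]
      · simp [dem]
      · simp [dem]
        omega
    · rw [total_dem (by omega : 3 ≤ D), ← hb]
      have hgs : gridSum D η = a * (6 * (1 / (36 * (D : ℝ))) ^ 2) := by
        have h1 : gridSum D η = gridSum D st'.η := by
          unfold gridSum
          apply Finset.sum_congr rfl
          intro k hk
          apply hagree
          rw [hst']
          simp only [Finset.mem_union]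
          right
          exact Finset.mem_image_of_mem _ hk
        rw [h1, hst']
        simp only
        rw [gridSum_add, hst.cancel D (by omega) (by rw [hD]; exact pow_dvd_pow 3 (by omega)),
          gridSum_siteBump_self (by omega) (by omega) (by omega), zero_add]
      have hww : (0 : ℝ) < 6 * (1 / (36 * (D : ℝ))) ^ 2 := by positivity
      have hhalf : (0 : ℝ) < (1 / 2) ^ (j + 6) := by positivity
      -- the successful algorithms of the finite part which avoid the bump answer correctly
      have key : ∀ A ∈ s, m ∉ (pts A).image κ → MidOK (pen η) (dem D) b A →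
          ∃ S : ℕ → Fin 4, IsOptimal (pen η) (dem D) S ∧ ((q A).run F).1 = S (D / 2 + 1) := by
        intro A hA hmA hsucc
        unfold MidOK at hsucc
        rw [total_dem (by omega : 3 ≤ D)] at hsucc
        obtain ⟨hprep, hqc, S, hS, hqa⟩ := hsucc
        have hagreeF : ∀ x ∈ pts A, ∀ i, F i x = pen η i x := by
          intro x hx i
          have h1 := hagree x (by
            rw [hst']
            simp only [Finset.mem_union]
            left; right
            exact Finset.mem_biUnion.2 ⟨A, hA, hx⟩)
          have h2 := hzero (pts A) hmA x hx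
          have h3 := hsub x
          have h4 : η x = st.η x := by linarith
          rw [hF]
          fin_cases i <;> simp [pen, h4]
        have e1 : (A.prep 4 (dem D)).run F = (A.prep 4 (dem D)).run (pen η) := by
          apply run_congr F (pen η) b
          · intro x hx i
            apply hagreeF
            rw [hpts]
            simp only [Finset.mem_union]
            left
            exact hx
          · exact hprep
        rw [← e1] at hqc hqa
        change ((q A).run (pen η)).2 ≤ b at hqc
        change ((q A).run (pen η)).1 = S (D / 2 + 1) at hqa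
        have e2 : (q A).run F = (q A).run (pen η) := by
          apply run_congr F (pen η) b
          · intro x hx i
            apply hagreeF
            rw [hpts]
            simp only [Finset.mem_union]
            right
            exact hx
          · exact hqc
        rw [← e2] at hqa
        exact ⟨S, hS, hqa⟩
      by_cases hp : 1 / 2 ≤ pr μ (fun A => ((q A).run F).1 = 0)
      · have hgneg : gridSum D η < 0 := by
          rw [hgs, ha, hσ, if_pos hp]
          have := mul_pos hhalf hww
          linarith
        have h1 := pr_union μ (MidOK (pen η) (dem D) b)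
          (fun A => ¬ ((q A).run F).1 = 0) (fun A => A ∉ s) (fun A => m ∈ (pts A).image κ) (by
            intro A hA
            by_cases hAs : A ∈ s
            · by_cases hmA : m ∈ (pts A).image κ
              · right; right; exact hmA
              · left
                obtain ⟨S, hS, hqa⟩ := key A hAs hmA hA
                rw [hqa]
                exact (opt_middle he7 hodd hη' hS).2 hgneg
            · right; left; exact hAs)
        have h2 := pr_add_not μ (fun A => ((q A).run F).1 = 0)
        have h3 : pr μ (fun A => ¬ ((q A).run F).1 = 0) ≤ 1 / 2 := by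
          have h4 : (1 : ℝ≥0∞) / 2 + pr μ (fun A => ¬ ((q A).run F).1 = 0) ≤ 1 / 2 + 1 / 2 :=
            calc (1 : ℝ≥0∞) / 2 + pr μ (fun A => ¬ ((q A).run F).1 = 0)
                ≤ pr μ (fun A => ((q A).run F).1 = 0) + pr μ (fun A => ¬ ((q A).run F).1 = 0) :=
                  add_le_add hp le_rfl
              _ = 1 := h2
              _ = 1 / 2 + 1 / 2 := (ENNReal.add_halves 1).symm
          exact (ENNReal.add_le_add_iff_left (by simp)).1 h4
        refine h1.trans ?_
        rw [add_assoc]
        exact add_le_add h3 (add_le_add hs hmlight)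
      · have hgpos : 0 < gridSum D η := by
          rw [hgs, ha, hσ, if_neg hp]
          have := mul_pos hhalf hww
          linarith
        have h1 := pr_union μ (MidOK (pen η) (dem D) b)
          (fun A => ((q A).run F).1 = 0) (fun A => A ∉ s) (fun A => m ∈ (pts A).image κ) (by
            intro A hA
            by_cases hAs : A ∈ s
            · by_cases hmA : m ∈ (pts A).image κ
              · right; right; exact hmA
              · left
                obtain ⟨S, hS, hqa⟩ := key A hAs hmA hA
                rw [hqa]
                exact (opt_middle he7 hodd hη' hS).1 hgpos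
            · right; left; exact hAs)
        refine h1.trans ?_
        rw [add_assoc]
        exact add_le_add (not_le.1 hp).le (add_le_add hs hmlight)

end Pool.Agent.Y591.JR
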