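import Mathlib
import Pool.Agent.Y591.JR.Step

set_option autoImplicit false

/-!
The limit of the construction.
-/

namespace Pool.Agent.Y591.JR

open Finset
open Pool.Agent.H688R2.JIT
open scoped ENNReal

section Limit

variable (T : ℕ → Stage → Prop)
  (hT : ∀ (j : ℕ) (st : Stage), Inv j st → ∃ st' : Stage, Inv (j + 1) st' ∧ Ext j st st' ∧ T j st')

/-- the sequence of stages -/
noncomputable def stg : (j : ℕ) → {st : Stage // Inv j st}
  | 0 => ⟨st0, inv0⟩
  | j + 1 => ⟨(hT j (stg j).1 (stg j).2).choose, (hT j (stg j).1 (stg j).2).choose_spec.1⟩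

lemma stg_ext (j : ℕ) : Ext j (stg T hT j).1 (stg T hT (j + 1)).1 :=
  (hT j (stg T hT j).1 (stg T hT j).2).choose_spec.2.1

lemma stg_T (j : ℕ) : T j (stg T hT (j + 1)).1 :=
  (hT j (stg T hT j).1 (stg T hT j).2).choose_spec.2.2

/-- the `j`-th increment -/
noncomputable def incr (j : ℕ) (x : ℝ) : ℝ := (stg T hT (j + 1)).1.η x - (stg T hT j).1.η x

/-- the final perturbation -/
noncomputable def lim (x : ℝ) : ℝ := ∑' j, incr T hT j x

lemma incr_abs (j : ℕ) (x : ℝ) : |incr T hT j x| ≤ (1 / 2 : ℝ) ^ (j + 1) / 20 :=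
  (stg_ext T hT j).small x

lemma incr_summable (x : ℝ) : Summable (fun j => incr T hT j x) := by
  apply Summable.of_norm_bounded (g := fun j : ℕ => (1 / 2 : ℝ) ^ (j + 1) / 20)
  · exact (hasSum_half.summable).div_const 20
  · intro j
    rw [Real.norm_eq_abs]
    exact incr_abs T hT j x

lemma sum_incr (J : ℕ) (x : ℝ) :
    ∑ j ∈ Finset.range J, incr T hT j x = (stg T hT J).1.η x := by
  induction J with
  | zero => rfl
  | succ J ih =>
    rw [Finset.sum_range_succ, ih]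
    unfold incr
    ring

lemma P_mono' (J k : ℕ) : (stg T hT J).1.P ⊆ (stg T hT (J + k)).1.P := by
  induction k with
  | zero => exact subset_rfl
  | succ k ih => exact ih.trans (stg_ext T hT (J + k)).sub

lemma lim_eq (J : ℕ) {x : ℝ} (hx : x ∈ (stg T hT J).1.P) :
    lim T hT x = (stg T hT J).1.η x := by
  unfold lim
  rw [tsum_eq_sum (s := Finset.range J), sum_incr]
  intro j hj
  rw [Finset.mem_range] at hj
  push Not at hj
  obtain ⟨k, rfl⟩ := Nat.exists_eq_add_of_le hj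
  unfold incr
  rw [(stg_ext T hT (J + k)).agree x (P_mono' T hT J k hx), sub_self]

lemma lim_ok : GridOK 0 (lim T hT) := by
  refine ⟨?_, ?_, ?_⟩
  · intro x
    unfold lim
    congr 1
    funext j
    unfold incr
    rw [(stg T hT (j + 1)).2.even, (stg T hT j).2.even]
  · intro x
    unfold lim
    have h1 : ‖∑' j, incr T hT j x‖ ≤ 1 / 20 := by
      apply tsum_of_norm_bounded (g := fun j : ℕ => (1 / 2 : ℝ) ^ (j + 1) / 20)
      · exact hasSum_half.div_const 20
      · intro j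
        rw [Real.norm_eq_abs]
        exact incr_abs T hT j x
    rw [Real.norm_eq_abs] at h1
    linarith
  · intro x hx
    by_contra hne
    apply hx
    have : ∀ j, (stg T hT j).1.η x = 0 := by
      intro j
      by_contra h
      exact hne ((stg T hT j).2.supp x h)
    unfold lim incr
    simp [this]

lemma lim_convex : ConvexOn ℝ Set.univ (fun x => x ^ 2 + lim T hT x) := by
  have hf : ∀ x, x ^ 2 + lim T hT x =
      ∑' j : ℕ, ((1 / 2 : ℝ) ^ (j + 1) * x ^ 2 + incr T hT j x) := by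
    intro x
    rw [Summable.tsum_add]
    · rw [tsum_mul_right, hasSum_half.tsum_eq, one_mul]
      rfl
    · exact hasSum_half.summable.mul_right _
    · exact incr_summable T hT x
  have hs : ∀ x, Summable (fun j : ℕ => ((1 / 2 : ℝ) ^ (j + 1) * x ^ 2 + incr T hT j x)) := by
    intro x
    exact (hasSum_half.summable.mul_right _).add (incr_summable T hT x)
  refine ⟨convex_univ, ?_⟩
  intro x _ y _ p q hp hq hpq
  simp only [hf, smul_eq_mul]
  rw [← tsum_mul_left, ← tsum_mul_left, ← Summable.tsum_add ((hs x).mul_left p)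
    ((hs y).mul_left q)]
  apply Summable.tsum_le_tsum
  · intro j
    have := (stg_ext T hT j).conv.2 (Set.mem_univ x) (Set.mem_univ y) hp hq hpq
    simp only [smul_eq_mul] at this
    exact this
  · exact hs _
  · exact ((hs x).mul_left p).add ((hs y).mul_left q)

lemma lim_admissible : Admissible (fun x => x ^ 2 + lim T hT x) := by
  have h := lim_ok T hT
  refine ⟨lim_convex T hT, ?_, ?_⟩
  · have : lim T hT 0 = 0 := eta_zero h.supp (by left; norm_num)
    simp [this]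
  · intro x hx
    change 0 < x ^ 2 + lim T hT x
    by_cases h0 : lim T hT x = 0
    · rw [h0]
      positivity
    · have h1 := h.supp x h0
      have h2 := abs_le.mp (h.small x)
      have h3 : x ^ 2 = |x| ^ 2 := (sq_abs x).symm
      rw [h3]
      nlinarith [h1.1, h2.1]

end Limit

theorem bounds_of_mid (μ : PMF Algorithm) (F : Fin 4 → ℝ → ℝ) (d : Fin 4 → ℕ) (c N : ℕ)
    (hd : 7 ≤ total d) (hN : 0 < N)
    (h : pr μ (MidOK F d (N * c * (4 + Nat.log 2 (total d) + 1) ^ (N * c))) ≤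
      1 / 2 + ((N : ℝ≥0∞)⁻¹ + (N : ℝ≥0∞)⁻¹)) :
    successProb μ F d c ≤ 1 / 2 + ((N : ℝ≥0∞)⁻¹ + (N : ℝ≥0∞)⁻¹) ∧
    (EfficientOn μ F d c → correctProb μ F d ≤
      1 / 2 + ((N : ℝ≥0∞)⁻¹ + (N : ℝ≥0∞)⁻¹) + (N : ℝ≥0∞)⁻¹ + (N : ℝ≥0∞)⁻¹) := by
  set x := 4 + Nat.log 2 (total d) + 1 with hx
  have hpow : x ^ c ≤ x ^ (N * c) :=
    Nat.pow_le_pow_right (by omega) (Nat.le_mul_of_pos_left _ hN)
  have hNB : N * (c * x ^ c) ≤ N * c * x ^ (N * c) := by
    rw [← mul_assoc]
    exact Nat.mul_le_mul_left _ hpow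
  have hB : c * x ^ c ≤ N * c * x ^ (N * c) :=
    (Nat.le_mul_of_pos_left _ hN).trans hNB
  have hk : total d / 2 + 1 ∈ Finset.Icc 1 (total d) := by
    rw [Finset.mem_Icc]
    omega
  constructor
  · refine le_trans ?_ h
    unfold successProb
    rw [pr_eq]
    apply pr_mono
    rintro A ⟨h1, h2, S, hS, h3⟩
    exact ⟨h1.trans hB, (h2 _ hk).trans hB, S, hS, h3 _ hk⟩
  · rintro ⟨h1, h2⟩
    unfold correctProb
    rw [pr_eq]
    have h3 := pr_union μ (Correct F d) (MidOK F d (N * c * x ^ (N * c)))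
      (fun A => ¬ ((A.prep 4 d).run F).2 ≤ N * c * x ^ (N * c))
      (fun A => ¬ ((A.query 4 ((A.prep 4 d).run F).1 (total d / 2 + 1)).run F).2 ≤
        N * c * x ^ (N * c)) (by
        rintro A ⟨S, hS, hA⟩
        by_cases h4 : ((A.prep 4 d).run F).2 ≤ N * c * x ^ (N * c)
        · by_cases h5 : ((A.query 4 ((A.prep 4 d).run F).1 (total d / 2 + 1)).run F).2 ≤
              N * c * x ^ (N * c)
          · left
            exact ⟨h4, h5, S, hS, hA _ hk⟩
          · right; right; exact h5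
        · right; left; exact h4)
    refine h3.trans (add_le_add (add_le_add h ?_) ?_)
    · exact markov μ (fun A => ((A.prep 4 d).run F).2) _ _ N h1 hNB
    · exact markov μ (fun A => ((A.query 4 ((A.prep 4 d).run F).1 (total d / 2 + 1)).run F).2)
        _ _ N (h2 _ hk) hNB

/-- the main theorem -/
theorem random_main (R : ℕ → RandAlgorithm) : ∃ F : Fin 4 → ℝ → ℝ,
    (∀ i, Admissible (F i) ∧ ∀ x, F i (-x) = F i x) ∧
    (∀ i, i ≠ 0 → F i = fun x => x ^ 2) ∧ (∀ x, |F 0 x - x ^ 2| ≤ 1 / 10) ∧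
    ∀ (m c : ℕ) (ε : ℝ≥0∞), 0 < ε → ∃ d : Fin 4 → ℕ, (∀ i, 0 < d i) ∧
      successProb (R m 4 d) F d c ≤ 1 / 2 + ε ∧
      (EfficientOn (R m 4 d) F d c → correctProb (R m 4 d) F d ≤ 1 / 2 + ε) := by
  set T : ℕ → Stage → Prop := fun j st =>
    Defeated (R j.unpair.1) ((j.unpair.2.unpair.2 + 1) * j.unpair.2.unpair.1)
      (j.unpair.2.unpair.2 + 1) st with hTdef
  have hT : ∀ (j : ℕ) (st : Stage), Inv j st →
      ∃ st' : Stage, Inv (j + 1) st' ∧ Ext j st st' ∧ T j st' :=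
    fun j st hst => random_step j st hst (R j.unpair.1) _ _ (Nat.succ_pos _)
  refine ⟨pen (lim T hT), ?_, ?_, ?_, ?_⟩
  · intro i
    fin_cases i
    · refine ⟨lim_admissible T hT, ?_⟩
      intro x
      simp only [pen]
      have := (lim_ok T hT).even x
      simp [this]
    · exact ⟨sq_admissible, fun x => by simp [pen]⟩
    · exact ⟨sq_admissible, fun x => by simp [pen]⟩
    · exact ⟨sq_admissible, fun x => by simp [pen]⟩
  · intro i hi
    fin_cases i
    · exact absurd rfl hi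
    · funext x; simp [pen]
    · funext x; simp [pen]
    · funext x; simp [pen]
  · intro x
    have h1 := (lim_ok T hT).small x
    have h2 : pen (lim T hT) 0 x - x ^ 2 = lim T hT x := by simp [pen]
    rw [h2]
    exact h1
  · intro m c ε hε
    have hε4 : 0 < ε / 2 / 2 := ENNReal.half_pos (ENNReal.half_pos hε.ne').ne'
    obtain ⟨N, hN⟩ := ENNReal.exists_inv_nat_lt hε4.ne'
    have h : Defeated (R (Nat.pair m (Nat.pair c N)).unpair.1)
        (((Nat.pair m (Nat.pair c N)).unpair.2.unpair.2 + 1) *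
          (Nat.pair m (Nat.pair c N)).unpair.2.unpair.1)
        ((Nat.pair m (Nat.pair c N)).unpair.2.unpair.2 + 1)
        (stg T hT (Nat.pair m (Nat.pair c N) + 1)).1 := stg_T T hT (Nat.pair m (Nat.pair c N))
    simp only [Nat.unpair_pair] at h
    obtain ⟨d, hd, hd7, hs⟩ := h (lim T hT) (lim_ok T hT) (fun x hx => lim_eq T hT _ hx)
    obtain ⟨h1, h2⟩ := bounds_of_mid _ _ d c (N + 1) hd7 (Nat.succ_pos N) hs
    have h3 : (((N + 1 : ℕ) : ℝ≥0∞))⁻¹ ≤ ε / 2 / 2 := by
      refine le_trans ?_ hN.le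
      apply ENNReal.inv_le_inv.2
      exact_mod_cast Nat.le_succ N
    have h4 : (((N + 1 : ℕ) : ℝ≥0∞))⁻¹ + (((N + 1 : ℕ) : ℝ≥0∞))⁻¹ ≤ ε / 2 :=
      calc (((N + 1 : ℕ) : ℝ≥0∞))⁻¹ + (((N + 1 : ℕ) : ℝ≥0∞))⁻¹ ≤ ε / 2 / 2 + ε / 2 / 2 :=
            add_le_add h3 h3
        _ = ε / 2 := ENNReal.add_halves _
    refine ⟨d, hd, h1.trans (add_le_add le_rfl (h4.trans ENNReal.half_le_self)),
      fun heff => (h2 heff).trans ?_⟩
    rw [add_assoc, add_assoc]
    refine add_le_add le_rfl ?_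
    calc (((N + 1 : ℕ) : ℝ≥0∞))⁻¹ + (((N + 1 : ℕ) : ℝ≥0∞))⁻¹ +
          ((((N + 1 : ℕ) : ℝ≥0∞))⁻¹ + (((N + 1 : ℕ) : ℝ≥0∞))⁻¹) ≤ ε / 2 + ε / 2 :=
          add_le_add h4 h4
      _ = ε := ENNReal.add_halves ε

end Pool.Agent.Y591.JR
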